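import Pool.Agent.Q32.RD.Stm2
set_option autoImplicit false

/-! Project RD of helper32: job CV (helper98). -/

namespace Q98.RD

open Q32.RD Cardinal
open scoped TensorProduct

universe u

/-- the Boolean ring of the functions of finitely many of the variables -/
def Loc (I : Type u) : Subalgebra (ZMod 2) ((I → Bool) → ZMod 2) where
  carrier := {f | ∃ F : Finset I, ∀ x y : I → Bool, (∀ i ∈ F, x i = y i) → f x = f y}
  mul_mem' := by
    classical
    rintro f g ⟨F, hF⟩ ⟨G, hG⟩
    refine ⟨F ∪ G, fun x y h => ?_⟩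
    rw [Pi.mul_apply, Pi.mul_apply, hF x y (fun i hi => h i (Finset.mem_union_left _ hi)),
      hG x y (fun i hi => h i (Finset.mem_union_right _ hi))]
  add_mem' := by
    classical
    rintro f g ⟨F, hF⟩ ⟨G, hG⟩
    refine ⟨F ∪ G, fun x y h => ?_⟩
    rw [Pi.add_apply, Pi.add_apply, hF x y (fun i hi => h i (Finset.mem_union_left _ hi)),
      hG x y (fun i hi => h i (Finset.mem_union_right _ hi))]
  algebraMap_mem' := fun r => ⟨∅, fun x y _ => rfl⟩

theorem loc_ext {I : Type u} {f g : Loc I} (h : ∀ x, f.1 x = g.1 x) : f = g :=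
  Subtype.ext (funext h)

/-- substitution -/
def pull {I : Type u} (θ : (I → Bool) → (I → Bool))
    (hθ : ∀ F : Finset I, ∃ G : Finset I, ∀ x y : I → Bool, (∀ i ∈ G, x i = y i) →
      ∀ i ∈ F, θ x i = θ y i) : Loc I →ₐ[ZMod 2] Loc I where
  toFun f := ⟨fun x => f.1 (θ x), by
    obtain ⟨F, hF⟩ := f.2
    obtain ⟨G, hG⟩ := hθ F
    exact ⟨G, fun x y h => hF _ _ (hG x y h)⟩⟩
  map_one' := rfl
  map_mul' _ _ := rfl
  map_zero' := rfl
  map_add' _ _ := rfl
  commutes' _ := rfl

theorem upd_ok {I : Type u} [DecidableEq I] (i : I) (F : Finset I) : ∃ G : Finset I,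
    ∀ x y : I → Bool, (∀ j ∈ G, x j = y j) →
      ∀ j ∈ F, Function.update x i true j = Function.update y i true j := by
  refine ⟨F, fun x y h j hj => ?_⟩
  by_cases hji : j = i
  · subst hji
    simp
  · rw [Function.update_of_ne hji, Function.update_of_ne hji]
    exact h j hj

theorem const_ok {I : Type u} (F : Finset I) : ∃ G : Finset I,
    ∀ x y : I → Bool, (∀ j ∈ G, x j = y j) →
      ∀ j ∈ F, (fun _ : I → Bool => fun _ : I => false) x j =
        (fun _ : I → Bool => fun _ : I => false) y j :=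
  ⟨∅, fun _ _ _ _ _ => rfl⟩

/-- the coordinate functions -/
def co {I : Type u} (i : I) : Loc I :=
  ⟨fun x => if x i then 1 else 0, ⟨{i}, fun x y h => by
    show (if x i then (1 : ZMod 2) else 0) = if y i then 1 else 0
    rw [h i (Finset.mem_singleton_self i)]⟩⟩

/-- the augmentation -/
def cc (I : Type u) : Loc I →ₐ[ZMod 2] Loc I := pull (fun _ _ => false) const_ok

open Classical in
/-- the substitution `e i := 1` -/
noncomputable def rr {I : Type u} (i : I) : Loc I →ₐ[ZMod 2] Loc I :=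
  pull (fun x => Function.update x i true) (upd_ok i)

theorem cc_apply {I : Type u} (f : Loc I) (x : I → Bool) : (cc I f).1 x = f.1 (fun _ => false) := rfl

open Classical in
theorem rr_apply {I : Type u} (i : I) (f : Loc I) (x : I → Bool) :
    (rr i f).1 x = f.1 (Function.update x i true) := rfl

theorem zz (a : ZMod 2) : a * a = a := by
  revert a
  decide

theorem zz2 (a : ZMod 2) : a = 0 ∨ a = 1 := by
  revert a
  decide

/-- the system -/
noncomputable def sy (I : Type u) : Sys I (Loc I) where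
  e := co
  ρ i := (rr i).toRingHom
  c := (cc I).toRingHom
  idem v := loc_ext fun x => zz _
  rho_e i := by
    classical
    apply loc_ext
    intro x
    show (rr i (co i)).1 x = 1
    rw [rr_apply]
    simp [co]
  comm i j v := by
    classical
    apply loc_ext
    intro x
    show (rr i (rr j v)).1 x = (rr j (rr i v)).1 x
    rw [rr_apply, rr_apply, rr_apply, rr_apply]
    by_cases h : i = j
    · subst h
      rfl
    · rw [Function.update_comm h]
  fin v := by
    classical
    obtain ⟨F, hF⟩ := v.2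
    apply F.finite_toSet.subset
    intro i hi
    by_contra hcon
    apply hi
    apply loc_ext
    intro x
    show (rr i v).1 x = v.1 x
    rw [rr_apply]
    apply hF
    intro j hj
    have : j ≠ i := by
      rintro rfl
      exact hcon hj
    rw [Function.update_of_ne this]
  c_e i := by
    apply loc_ext
    intro x
    show (cc I (co i)).1 x = 0
    rw [cc_apply]
    simp [co]
  c_val v := by
    rcases zz2 (v.1 (fun _ => false)) with h | h
    · left
      exact loc_ext fun x => h
    · right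
      exact loc_ext fun x => h
  one_ne := by
    intro h
    have := congrArg (fun f : Loc I => f.1 (fun _ => false)) h
    exact one_ne_zero this

theorem cc_cc {I : Type u} (f : Loc I) : cc I (cc I f) = cc I f := rfl

/-- the tensor square -/
abbrev TW (I : Type u) : Type u := Loc I ⊗[ZMod 2] Loc I

/-- `id ⊗ c` -/
noncomputable def et (I : Type u) : TW I →ₐ[ZMod 2] Loc I :=
  Algebra.TensorProduct.productMap (AlgHom.id (ZMod 2) (Loc I)) (cc I)

/-- the data on the tensor square -/
noncomputable def bd (I : Type u) : BiDat (sy I) (TW I) where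
  L := (Algebra.TensorProduct.includeLeft : Loc I →ₐ[ZMod 2] TW I).toRingHom
  R := (Algebra.TensorProduct.includeRight : Loc I →ₐ[ZMod 2] TW I).toRingHom
  μ := (Algebra.TensorProduct.lmul' (ZMod 2) : TW I →ₐ[ZMod 2] Loc I).toRingHom
  η := (et I).toRingHom
  mu_L v := by
    show (Algebra.TensorProduct.lmul' (ZMod 2) : TW I →ₐ[ZMod 2] Loc I) (v ⊗ₜ[ZMod 2] 1) = v
    rw [Algebra.TensorProduct.lmul'_apply_tmul, mul_one]
  mu_R v := by
    show (Algebra.TensorProduct.lmul' (ZMod 2) : TW I →ₐ[ZMod 2] Loc I) (1 ⊗ₜ[ZMod 2] v) = v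
    rw [Algebra.TensorProduct.lmul'_apply_tmul, one_mul]
  eta_L v := by
    show et I (v ⊗ₜ[ZMod 2] 1) = v
    unfold et
    rw [Algebra.TensorProduct.productMap_apply_tmul, map_one, mul_one]
    rfl
  eta_R v := by
    show et I (1 ⊗ₜ[ZMod 2] v) = cc I v
    unfold et
    rw [Algebra.TensorProduct.productMap_apply_tmul, map_one, one_mul]
  c_eta w := by
    show cc I (et I w) = cc I ((Algebra.TensorProduct.lmul' (ZMod 2) : TW I →ₐ[ZMod 2] Loc I) w)
    induction w using TensorProduct.induction_on with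
    | zero => rw [map_zero, map_zero, map_zero, map_zero]
    | tmul a b =>
      rw [Algebra.TensorProduct.lmul'_apply_tmul]
      unfold et
      rw [Algebra.TensorProduct.productMap_apply_tmul, map_mul, map_mul, cc_cc]
      rfl
    | add a b ha hb => rw [map_add, map_add, map_add, map_add, ha, hb]
  good w := by
    have hidem : ∀ v : Loc I, v * v = v := (sy I).idem
    have hc1 : ∀ b : Loc I, cc I b = 0 ∨ cc I b = 1 := (sy I).c_val
    show ∃ f, cc I f = 0 ∧ (w - (et I w) ⊗ₜ[ZMod 2] 1) * (1 ⊗ₜ[ZMod 2] (1 - f)) = 0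
    induction w using TensorProduct.induction_on with
    | zero =>
      refine ⟨0, map_zero _, ?_⟩
      rw [map_zero, TensorProduct.zero_tmul, sub_zero, zero_mul]
    | tmul a b =>
      refine ⟨b - cc I b, by rw [map_sub, cc_cc, sub_self], ?_⟩
      have h1 : et I (a ⊗ₜ[ZMod 2] b) = a * cc I b := by
        unfold et
        rw [Algebra.TensorProduct.productMap_apply_tmul]
        rfl
      have h2 : (a * cc I b) ⊗ₜ[ZMod 2] (1 : Loc I) = a ⊗ₜ[ZMod 2] (cc I b) := by
        rcases hc1 b with h | h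
        · rw [h, mul_zero, TensorProduct.zero_tmul, TensorProduct.tmul_zero]
        · rw [h, mul_one]
      rw [h1, h2, ← TensorProduct.tmul_sub, Algebra.TensorProduct.tmul_mul_tmul, mul_one, mul_sub,
        mul_one, hidem, sub_self, TensorProduct.tmul_zero]
    | add a b ha hb =>
      obtain ⟨f, hf1, hf2⟩ := ha
      obtain ⟨g, hg1, hg2⟩ := hb
      refine ⟨f + g - f * g, by rw [map_sub, map_add, map_mul, hf1, hg1]; ring, ?_⟩
      have h1 : (1 : Loc I) - (f + g - f * g) = (1 - f) * (1 - g) := by ring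
      have h2 : (1 : Loc I) ⊗ₜ[ZMod 2] ((1 - f) * (1 - g)) =
          ((1 : Loc I) ⊗ₜ[ZMod 2] (1 - f)) * ((1 : Loc I) ⊗ₜ[ZMod 2] (1 - g)) := by
        rw [Algebra.TensorProduct.tmul_mul_tmul, one_mul]
      rw [h1, h2, map_add, TensorProduct.add_tmul]
      have h3 : (a + b - (et I a ⊗ₜ[ZMod 2] 1 + et I b ⊗ₜ[ZMod 2] 1)) *
          (((1 : Loc I) ⊗ₜ[ZMod 2] (1 - f)) * ((1 : Loc I) ⊗ₜ[ZMod 2] (1 - g))) =
          ((a - et I a ⊗ₜ[ZMod 2] 1) * ((1 : Loc I) ⊗ₜ[ZMod 2] (1 - f))) *
            ((1 : Loc I) ⊗ₜ[ZMod 2] (1 - g)) +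
          ((b - et I b ⊗ₜ[ZMod 2] 1) * ((1 : Loc I) ⊗ₜ[ZMod 2] (1 - g))) *
            ((1 : Loc I) ⊗ₜ[ZMod 2] (1 - f)) := by ring
      rw [h3, hf2, hg2, zero_mul, zero_mul, add_zero]
  smul_L v w := by
    show v • w = (v ⊗ₜ[ZMod 2] 1) * w
    induction w using TensorProduct.induction_on with
    | zero => rw [smul_zero, mul_zero]
    | tmul a b =>
      rw [Algebra.TensorProduct.tmul_mul_tmul, one_mul, TensorProduct.smul_tmul']
      rfl
    | add a b ha hb => rw [smul_add, mul_add, ha, hb]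
  proj := by
    haveI : Fact (Nat.Prime 2) := ⟨Nat.prime_two⟩
    haveI : Module.Free (Loc I) (TW I) := inferInstance
    exact Module.Projective.of_free

theorem card_loc (I : Type u) [Infinite I] : #(Loc I) ≤ #I := by
  classical
  let φ : (Σ F : Finset I, ((F → Bool) → ZMod 2)) → Loc I := fun s =>
    ⟨fun x => s.2 (fun i => x i), ⟨s.1, fun x y h => by
      have h1 : (fun i : s.1 => x i) = fun i : s.1 => y i := funext fun i => h i i.2
      show s.2 (fun i : s.1 => x i) = s.2 (fun i : s.1 => y i)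
      rw [h1]⟩⟩
  have hφ : Function.Surjective φ := by
    intro f
    obtain ⟨F, hF⟩ := f.2
    refine ⟨⟨F, fun y => f.1 (fun i => if h : i ∈ F then y ⟨i, h⟩ else false)⟩, ?_⟩
    apply loc_ext
    intro x
    apply hF
    intro i hi
    simp [hi]
  refine (Cardinal.mk_le_of_surjective hφ).trans ?_
  rw [Cardinal.mk_sigma]
  refine (Cardinal.sum_le_sum _ (fun _ => ℵ₀) (fun F => ?_)).trans ?_
  · exact (Cardinal.lt_aleph0_of_finite _).le
  · rw [Cardinal.sum_const', Cardinal.mk_finset_of_infinite]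
    exact (Cardinal.mul_aleph0_eq (Cardinal.aleph0_le_mk I)).le

theorem card_lvl (n : ℕ) :
    #{i : Σ k : ℕ, (ℵ_ (k : Ordinal.{u})).out // i.1 ≤ n} = ℵ_ (n : Ordinal.{u}) := by
  apply le_antisymm
  · let φ : {i : Σ k : ℕ, (ℵ_ (k : Ordinal.{u})).out // i.1 ≤ n} →
        Σ k : Fin (n + 1), (ℵ_ ((k : ℕ) : Ordinal.{u})).out :=
      fun i => ⟨⟨i.1.1, Nat.lt_succ_of_le i.2⟩, i.1.2⟩
    have hφ : Function.Injective φ := by
      rintro ⟨⟨a, b⟩, h⟩ ⟨⟨c, d⟩, h'⟩ hab
      simp only [φ, Sigma.mk.injEq, Fin.mk.injEq] at hab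
      obtain ⟨rfl, hbd⟩ := hab
      have := eq_of_heq hbd
      subst this
      rfl
    refine (Cardinal.mk_le_of_injective hφ).trans ?_
    rw [Cardinal.mk_sigma]
    refine (Cardinal.sum_le_sum _ (fun _ => ℵ_ (n : Ordinal.{u})) (fun k => ?_)).trans ?_
    · rw [Cardinal.mk_out]
      apply Cardinal.aleph_le_aleph.2
      exact_mod_cast Nat.le_of_lt_succ k.2
    · rw [Cardinal.sum_const, Cardinal.lift_id', Cardinal.mk_fin, Cardinal.lift_natCast]
      exact (Cardinal.mul_eq_right (Cardinal.aleph0_le_aleph _)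
        ((Cardinal.natCast_lt_aleph0).le.trans (Cardinal.aleph0_le_aleph _))
        (by exact_mod_cast Nat.succ_ne_zero n)).le
  · have : #((ℵ_ (n : Ordinal.{u})).out) = ℵ_ (n : Ordinal.{u}) := Cardinal.mk_out _
    rw [← this]
    refine Cardinal.mk_le_of_injective
      (f := fun x : (ℵ_ (n : Ordinal.{u})).out =>
        (⟨⟨n, x⟩, le_refl n⟩ : {i : Σ k : ℕ, (ℵ_ (k : Ordinal.{u})).out // i.1 ≤ n})) ?_
    intro a b hab
    have h1 := congrArg Subtype.val hab
    exact eq_of_heq (Sigma.mk.inj h1).2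

theorem cv : S_CV.{u} := by
  let I : Type u := Σ k : ℕ, (ℵ_ (k : Ordinal.{u})).out
  haveI : Infinite I := by
    haveI : Infinite ((ℵ_ ((0 : ℕ) : Ordinal.{u})).out) := by
      rw [← Cardinal.aleph0_le_mk_iff, Cardinal.mk_out]
      exact Cardinal.aleph0_le_aleph _
    exact Infinite.of_injective (fun x : (ℵ_ ((0 : ℕ) : Ordinal.{u})).out => (⟨0, x⟩ : I))
      (fun a b hab => eq_of_heq (Sigma.mk.inj hab).2)
  exact ⟨I, Loc I, inferInstance, sy I, TW I, inferInstance, inferInstance, bd I, Sigma.fst,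
    card_loc I, card_lvl⟩

end Q98.RD
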