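import Pool.Agent.Q32.RD.Stm2
set_option autoImplicit false

/-! Project RD of helper32: job EMB (helper98). -/

namespace Q98.RD

open Q32.RD

universe u

theorem exists_inj (V : Type u) [CommRing V] (M : Type u) [AddCommGroup M] [Module V M] :
    ∃ (J : Type u) (_ : AddCommGroup J) (_ : Module V J) (i : M →ₗ[V] J),
      Module.Injective V J ∧ Function.Injective i := by
  let X := CategoryTheory.Injective.under (ModuleCat.of V M)
  let f := CategoryTheory.Injective.ι (ModuleCat.of V M)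
  have hX : CategoryTheory.Injective X := inferInstance
  have h2 : CategoryTheory.Injective (ModuleCat.of V X) := hX
  exact ⟨X, inferInstance, inferInstance, f.hom, Module.injective_module_of_injective_object V X,
    (ModuleCat.mono_iff_injective f).1 inferInstance⟩

theorem inj_prod (V : Type u) [CommRing V] (J K : Type u) [AddCommGroup J] [Module V J]
    [AddCommGroup K] [Module V K] (h1 : Module.Injective V J) (h2 : Module.Injective V K) :
    Module.Injective V (J × K) := by
  refine ⟨fun X Y _ _ _ _ f hf g => ?_⟩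
  obtain ⟨a, ha⟩ := h1.out f hf ((LinearMap.fst V J K).comp g)
  obtain ⟨b, hb⟩ := h2.out f hf ((LinearMap.snd V J K).comp g)
  exact ⟨a.prod b, fun x => Prod.ext (ha x) (hb x)⟩

theorem emb : S_EMB.{u} := by
  intro V _ C _ _ Dm hD
  obtain ⟨J, _, _, i, hJ, hi⟩ := exists_inj V (LinearMap.ker Dm)
  obtain ⟨i', hi'⟩ := hJ.out (LinearMap.ker Dm).subtype Subtype.val_injective i
  have hi'' : ∀ (c : C) (hc : Dm c = 0), i' c = i ⟨c, hc⟩ := fun c hc => hi' ⟨c, hc⟩
  have hDD : ∀ c, Dm (Dm c) = 0 := by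
    intro c
    have : Dm c ∈ LinearMap.ker Dm := by
      rw [hD]
      exact ⟨c, rfl⟩
    exact this
  let DR : C →ₗ[V] LinearMap.ker Dm := LinearMap.codRestrict _ Dm hDD
  let Φ : C →ₗ[V] J × J := i'.prod (i.comp DR)
  have hΦ : ∀ c, Φ c = (i' c, i (DR c)) := fun _ => rfl
  have hDR0 : ∀ c, i (DR c) = 0 → Dm c = 0 := by
    intro c hc
    have : DR c = 0 := hi (by rw [hc, map_zero])
    exact congrArg Subtype.val this
  have hDR : ∀ c, i (DR c) = i' (Dm c) := fun c => (hi'' (Dm c) (hDD c)).symm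
  let d : J × J →ₗ[V] J × J := (LinearMap.inl V J J).comp (LinearMap.snd V J J)
  have hd : LinearMap.range Φ ≤ (LinearMap.range Φ).comap d := by
    rintro _ ⟨c, rfl⟩
    refine ⟨Dm c, ?_⟩
    have h1 : i (DR (Dm c)) = 0 := by rw [hDR, hDD, map_zero]
    rw [hΦ, h1]
    show (i' (Dm c), (0 : J)) = (i (DR c), 0)
    rw [hDR]
  let δ : ((J × J) ⧸ LinearMap.range Φ) →ₗ[V] ((J × J) ⧸ LinearMap.range Φ) :=
    Submodule.mapQ _ _ d hd
  have hδ : ∀ z : J × J, δ (Submodule.Quotient.mk z) = Submodule.Quotient.mk (z.2, 0) := fun _ => rfl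
  have hker : LinearMap.ker δ = LinearMap.range δ := by
    ext y
    constructor
    · intro hy
      obtain ⟨⟨a, b⟩, rfl⟩ := Submodule.Quotient.mk_surjective _ y
      rw [LinearMap.mem_ker, hδ, Submodule.Quotient.mk_eq_zero] at hy
      obtain ⟨c, hc⟩ := hy
      rw [hΦ] at hc
      have hc1 : i' c = b := congrArg Prod.fst hc
      have hc2 : i (DR c) = 0 := congrArg Prod.snd hc
      have hc3 : c ∈ LinearMap.range Dm := by
        rw [← hD]
        exact hDR0 c hc2
      obtain ⟨c', hc'⟩ := hc3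
      refine ⟨Submodule.Quotient.mk (0, a - i' c'), ?_⟩
      rw [hδ, Submodule.Quotient.eq]
      refine ⟨-c', ?_⟩
      rw [map_neg, hΦ, hDR, hc', hc1]
      apply Prod.ext <;> simp
    · rintro ⟨x, rfl⟩
      obtain ⟨z, rfl⟩ := Submodule.Quotient.mk_surjective _ x
      rw [LinearMap.mem_ker, hδ, hδ]
      rfl
  let f : J →ₗ[V] LinearMap.ker δ :=
    LinearMap.codRestrict _ ((LinearMap.range Φ).mkQ.comp (LinearMap.inl V J J)) (fun a => by
      show δ (Submodule.Quotient.mk (a, 0)) = 0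
      rw [hδ]
      rfl)
  have hf : ∀ a, (f a : (J × J) ⧸ LinearMap.range Φ) = Submodule.Quotient.mk (a, 0) := fun _ => rfl
  have hfs : Function.Surjective f := by
    rintro ⟨y, hy⟩
    rw [hker] at hy
    obtain ⟨x, rfl⟩ := hy
    obtain ⟨z, rfl⟩ := Submodule.Quotient.mk_surjective _ x
    exact ⟨z.2, Subtype.ext rfl⟩
  have hfk : LinearMap.ker f = LinearMap.range i := by
    ext a
    rw [LinearMap.mem_ker]
    constructor
    · intro h
      have h1 : (Submodule.Quotient.mk (a, 0) : (J × J) ⧸ LinearMap.range Φ) = 0 :=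
        congrArg Subtype.val h
      rw [Submodule.Quotient.mk_eq_zero] at h1
      obtain ⟨c, hc⟩ := h1
      rw [hΦ] at hc
      have hc1 : i' c = a := congrArg Prod.fst hc
      have hc2 : i (DR c) = 0 := congrArg Prod.snd hc
      exact ⟨⟨c, hDR0 c hc2⟩, by rw [← hi'' c (hDR0 c hc2), hc1]⟩
    · rintro ⟨k, rfl⟩
      apply Subtype.ext
      rw [hf]
      show (Submodule.Quotient.mk (i k, 0) : (J × J) ⧸ LinearMap.range Φ) = 0
      rw [Submodule.Quotient.mk_eq_zero]
      refine ⟨k, ?_⟩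
      have h2 : Dm (k : C) = 0 := k.2
      rw [hΦ, hDR, h2, map_zero, hi'' k k.2]
  refine ⟨J, inferInstance, inferInstance, i, Φ, δ, hJ, hi, inj_prod V J J hJ hJ, ?_, hker,
    ⟨(Submodule.quotEquivOfEq _ _ hfk.symm).trans (f.quotKerEquivOfSurjective hfs)⟩⟩
  rw [← LinearMap.ker_eq_bot, LinearMap.ker_eq_bot']
  intro c hc
  rw [hΦ] at hc
  have hc1 : i' c = 0 := congrArg Prod.fst hc
  have hc2 : i (DR c) = 0 := congrArg Prod.snd hc
  rw [hi'' c (hDR0 c hc2)] at hc1
  have : (⟨c, hDR0 c hc2⟩ : LinearMap.ker Dm) = 0 := hi (by rw [hc1, map_zero])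
  exact congrArg Subtype.val this

end Q98.RD
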