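import Pool.Agent.Q32.RD.Stm
set_option autoImplicit false

/-! Project RD of helper32: jobs KIN, NP (helper98). -/

namespace Q98.RD

open Q32.RD

universe u

theorem smul_q {I V : Type u} [CommRing V] (S : Sys I V) (v : V) (hv : S.c v = 1)
    (q : V ⧸ RingHom.ker S.c) : v • q = q := by
  obtain ⟨w, rfl⟩ := Ideal.Quotient.mk_surjective q
  have h1 : v • (Ideal.Quotient.mk (RingHom.ker S.c) w) =
      Ideal.Quotient.mk (RingHom.ker S.c) (v * w) := rfl
  rw [h1, Ideal.Quotient.eq, RingHom.mem_ker, map_sub, map_mul, hv, one_mul, sub_self]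

theorem smul_q0 {I V : Type u} [CommRing V] (S : Sys I V) (v : V) (hv : S.c v = 0)
    (q : V ⧸ RingHom.ker S.c) : v • q = 0 := by
  obtain ⟨w, rfl⟩ := Ideal.Quotient.mk_surjective q
  have h1 : v • (Ideal.Quotient.mk (RingHom.ker S.c) w) =
      Ideal.Quotient.mk (RingHom.ker S.c) (v * w) := rfl
  rw [h1, Ideal.Quotient.eq_zero_iff_mem, RingHom.mem_ker, map_mul, hv, zero_mul]

theorem kin : S_KIN.{u} := by
  intro I V _ S
  apply Module.Baer.injective
  intro 𝔞 g
  by_cases h : ∃ a₀ : 𝔞, S.c a₀ = 1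
  · obtain ⟨a₀, ha₀⟩ := h
    refine ⟨LinearMap.toSpanSingleton V _ (g a₀), fun x mem => ?_⟩
    rw [LinearMap.toSpanSingleton_apply]
    have h1 : (a₀ : V) • g ⟨x, mem⟩ = x • g a₀ := by
      rw [← map_smul, ← map_smul]
      congr 1
      apply Subtype.ext
      simp [mul_comm]
    rw [← h1, smul_q S _ ha₀]
  · refine ⟨0, fun x mem => ?_⟩
    have hx : S.c x = 0 := by
      rcases S.c_val x with h1 | h1
      · exact h1
      · exact absurd ⟨⟨x, mem⟩, h1⟩ h
    have h1 : g ⟨x, mem⟩ = x • g ⟨x, mem⟩ := by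
      rw [← map_smul]
      congr 1
      apply Subtype.ext
      simp [S.idem]
    rw [h1, smul_q0 S _ hx]
    rfl

theorem e_mul_ne {I V : Type u} [CommRing V] (S : Sys I V) (i : I) (v : V) (hv : v ≠ 0)
    (h : S.ρ i v = v) : S.e i * v ≠ 0 := by
  intro h0
  apply hv
  have h1 : S.ρ i (S.e i * v) = 0 := by rw [h0, map_zero]
  rw [map_mul, S.rho_e, one_mul, h] at h1
  exact h1

theorem np : S_NP.{u} := by
  intro I V _ _ S hP
  obtain ⟨s, hs⟩ := hP.out
  have hei : ∀ i, S.e i ∈ RingHom.ker S.c := fun i => by rw [RingHom.mem_ker, S.c_e]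
  set G : Set (RingHom.ker S.c) := {g | ∃ x, s x g ≠ 0} with hG
  have hfin : G.Finite := by
    by_contra hinf
    have hinf' : G.Infinite := hinf
    let g : ℕ ↪ G := hinf'.natEmbedding G
    have hx : ∀ n, ∃ x, s x (g n).1 ≠ 0 := fun n => (g n).2
    choose x hx using hx
    have hc : (⋃ n, {i | S.ρ i (s (x n) (g n).1) ≠ s (x n) (g n).1}).Countable :=
      Set.countable_iUnion fun n => (S.fin _).countable
    obtain ⟨i, hi⟩ : ∃ i, i ∉ ⋃ n, {i | S.ρ i (s (x n) (g n).1) ≠ s (x n) (g n).1} := by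
      by_contra hcon
      push Not at hcon
      have : (Set.univ : Set I).Countable := hc.mono fun i _ => hcon i
      exact Set.not_countable_univ this
    have hi' : ∀ n, S.ρ i (s (x n) (g n).1) = s (x n) (g n).1 := by
      intro n
      by_contra hcon
      exact hi (Set.mem_iUnion.2 ⟨n, hcon⟩)
    have hne : ∀ n, s ⟨S.e i, hei i⟩ (g n).1 ≠ 0 := by
      intro n h0
      have h1 : (x n : V) • s ⟨S.e i, hei i⟩ = S.e i • s (x n) := by
        rw [← map_smul, ← map_smul]
        congr 1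
        apply Subtype.ext
        simp [mul_comm]
      have h2 := DFunLike.congr_fun h1 (g n).1
      rw [Finsupp.smul_apply, Finsupp.smul_apply, h0, smul_zero] at h2
      exact e_mul_ne S i _ (hx n) (hi' n) (by rw [← smul_eq_mul, ← h2])
    have : (Set.range fun n => (g n).1).Finite := by
      apply (s ⟨S.e i, hei i⟩).support.finite_toSet.subset
      rintro _ ⟨n, rfl⟩
      exact Finsupp.mem_support_iff.2 (hne n)
    exact (Set.infinite_range_of_injective
      (fun a b hab => g.injective (Subtype.ext hab))) this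
  have hfin2 : (⋃ g ∈ G, {i | S.ρ i (g : V) ≠ g}).Finite := hfin.biUnion fun g _ => S.fin _
  obtain ⟨i, hi⟩ : ∃ i, i ∉ ⋃ g ∈ G, {i | S.ρ i (g : V) ≠ g} := by
    by_contra hcon
    push Not at hcon
    have : (Set.univ : Set I).Countable := hfin2.countable.mono fun i _ => hcon i
    exact Set.not_countable_univ this
  have hi' : ∀ g ∈ G, S.ρ i (g : V) = g := by
    intro g hg
    by_contra hcon
    exact hi (Set.mem_iUnion₂.2 ⟨g, hg, hcon⟩)
  have h1 := hs ⟨S.e i, hei i⟩
  rw [Finsupp.linearCombination_apply, Finsupp.sum] at h1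
  have h2 := congrArg (fun z : RingHom.ker S.c => S.c (S.ρ i (z : V))) h1
  simp only [id, S.rho_e, map_one] at h2
  have h3 : S.c (S.ρ i ((∑ a ∈ (s ⟨S.e i, hei i⟩).support, (s ⟨S.e i, hei i⟩) a • a :
      RingHom.ker S.c) : V)) = 0 := by
    rw [AddSubmonoidClass.coe_finset_sum, map_sum, map_sum]
    apply Finset.sum_eq_zero
    intro g hg
    have hgG : g ∈ G := ⟨_, Finsupp.mem_support_iff.1 hg⟩
    have : (((s ⟨S.e i, hei i⟩) g • g : RingHom.ker S.c) : V) = (s ⟨S.e i, hei i⟩) g * (g : V) := rfl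
    rw [this, map_mul, map_mul, hi' g hgG, RingHom.mem_ker.1 g.2, mul_zero]
  rw [h3] at h2
  exact S.one_ne h2.symm

end Q98.RD
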