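import Pool.Agent.Q32.RD.Stm2
set_option autoImplicit false

/-! Project RD of helper32: job RG5 (helper98). -/

namespace Q98.RD

open Q32.RD

universe u

section

variable {I V : Type u} [CommRing V] {S : Sys I V} {W : Type u} [CommRing W] [Module V W]

/-- the element of the nilpotent ideal which maps `1` to `v` -/
noncomputable def av (D : BiDat S W) (v : V) : RA D :=
  ⟨Big.mk' D 0 (-(D.L v * (D.R v - 1))) 0, by
    refine ⟨?_, fun i => by simp⟩
    rw [Big.sn_mk, map_neg, map_mul, map_sub, map_one, D.mu_L, D.mu_R, mul_sub, S.idem, mul_one,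
      sub_self, neg_zero]⟩

theorem prj_av (D : BiDat S W) (v : V) : prj D (av D v) = 0 := rfl

theorem eta_av (D : BiDat S W) (v : V) (hv : S.c v = 0) : D.η (av D v).1.sn = v := by
  have : (av D v).1.sn = -(D.L v * (D.R v - 1)) := rfl
  rw [this, map_neg, map_mul, map_sub, map_one, D.eta_L, D.eta_R, hv]
  ring

theorem c_eta0 (D : BiDat S W) (a : RA D) : S.c (D.η a.1.sn) = 0 := by
  rw [D.c_eta, a.2.1, map_zero]

end

theorem rg5 : S_RG5.{u} := by
  intro I V _ S W _ _ D m hm Z _ _ _ hZ hSpl
  letI := m
  have hsm : ∀ (a : RA D) (w : V), a • w = a.1.fs * w + D.η a.1.sn * S.c w := hm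
  intro E _ _ j p hj hp hjp
  letI mE : Module (RA D) E := Module.compHom E (prj D)
  have hsE : ∀ (a : RA D) (w : E), a • w = prj D a • w := fun _ _ => rfl
  have hmk : ∀ v x : V, v • (Ideal.Quotient.mk (RingHom.ker S.c) x) =
    Ideal.Quotient.mk (RingHom.ker S.c) (v * x) := fun _ _ => rfl
  -- the pullback
  let P : Submodule (RA D) (E × V) :=
    { carrier := {z | p z.1 = Ideal.Quotient.mk (RingHom.ker S.c) z.2}
      add_mem' := by
        intro a b ha hb
        simp only [Set.mem_setOf_eq, Prod.fst_add, Prod.snd_add, map_add] at *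
        rw [ha, hb]
      zero_mem' := by simp
      smul_mem' := by
        intro a z hz
        simp only [Set.mem_setOf_eq, Prod.smul_fst, Prod.smul_snd] at *
        rw [hsE, map_smul, hz, hmk, hsm, map_add]
        have : Ideal.Quotient.mk (RingHom.ker S.c) (D.η a.1.sn * S.c z.2) = 0 := by
          rw [Ideal.Quotient.eq_zero_iff_mem, RingHom.mem_ker, map_mul, c_eta0, zero_mul]
        rw [this, add_zero]
        rfl }
  have hPmem : ∀ (w : E) (x : V), ((w, x) : E × V) ∈ P ↔
      p w = Ideal.Quotient.mk (RingHom.ker S.c) x := fun _ _ => Iff.rfl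
  have hj0 : ∀ z, p (j z) = 0 := by
    intro z
    have : j z ∈ LinearMap.range j := ⟨z, rfl⟩
    rw [hjp] at this
    exact this
  let i : Z →ₗ[RA D] P :=
    { toFun := fun z => ⟨(j z, 0), by rw [hPmem, hj0, map_zero]⟩
      map_add' := by
        intro a b
        apply Subtype.ext
        simp
      map_smul' := by
        intro a z
        apply Subtype.ext
        apply Prod.ext
        · simp only [RingHom.id_apply, Submodule.coe_smul, Prod.smul_fst]
          rw [hsE, hZ, map_smul]
        · simp }
  let q : P →ₗ[RA D] V := (LinearMap.snd (RA D) E V).comp P.subtype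
  obtain ⟨r, hr⟩ := hSpl P i q
    (by
      intro a b hab
      apply hj
      exact congrArg (fun z : P => z.1.1) hab)
    (by
      intro x
      obtain ⟨w, hw⟩ := hp (Ideal.Quotient.mk (RingHom.ker S.c) x)
      exact ⟨⟨(w, x), hw⟩, rfl⟩)
    (by
      ext z
      constructor
      · rintro ⟨y, rfl⟩
        rfl
      · intro hz
        have hz2 : z.1.2 = 0 := hz
        have hz1 : p z.1.1 = 0 := by
          have := z.2
          have h2 : p z.1.1 = Ideal.Quotient.mk (RingHom.ker S.c) z.1.2 := this
          rw [h2, hz2, map_zero]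
        have : z.1.1 ∈ LinearMap.range j := by
          rw [hjp]
          exact hz1
        obtain ⟨y, hy⟩ := this
        refine ⟨y, Subtype.ext (Prod.ext hy ?_)⟩
        exact hz2.symm)
  -- independence of the representative
  have hr0 : ∀ (v : V) (h : ((0, v) : E × V) ∈ P), r ⟨(0, v), h⟩ = 0 := by
    intro v h
    have hv : S.c v = 0 := by
      rw [hPmem, map_zero, eq_comm, Ideal.Quotient.eq_zero_iff_mem, RingHom.mem_ker] at h
      exact h
    obtain ⟨w, hw⟩ := hp (Ideal.Quotient.mk (RingHom.ker S.c) 1)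
    have h1 : (⟨(0, v), h⟩ : P) = av D v • (⟨(w, 1), hw⟩ : P) := by
      apply Subtype.ext
      apply Prod.ext
      · show (0 : E) = av D v • w
        rw [hsE, prj_av, zero_smul]
      · show v = av D v • (1 : V)
        rw [hsm, eta_av D v hv, map_one]
        have : (av D v).1.fs = 0 := rfl
        rw [this]
        ring
    rw [h1, map_smul, hZ, prj_av, zero_smul]
  have hind : ∀ (w : E) (x x' : V) (h : ((w, x) : E × V) ∈ P) (h' : ((w, x') : E × V) ∈ P),
      r ⟨(w, x), h⟩ = r ⟨(w, x'), h'⟩ := by
    intro w x x' h h'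
    have h2 : ((0, x - x') : E × V) ∈ P := by
      have := P.sub_mem h h'
      simpa using this
    have h3 : (⟨(w, x), h⟩ : P) = ⟨(w, x'), h'⟩ + ⟨(0, x - x'), h2⟩ := by
      apply Subtype.ext
      simp
    rw [h3, map_add, hr0, add_zero]
  choose x hx using fun w : E => Ideal.Quotient.mk_surjective (p w)
  have hxP : ∀ w : E, ((w, x w) : E × V) ∈ P := fun w => (hx w).symm
  refine ⟨{ toFun := fun w => r ⟨(w, x w), hxP w⟩, map_add' := ?_, map_smul' := ?_ }, ?_⟩
  · intro a b
    have h1 : ((a + b, x a + x b) : E × V) ∈ P := P.add_mem (hxP a) (hxP b)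
    rw [hind _ _ _ (hxP (a + b)) h1, ← map_add]
    rfl
  · intro v w
    have h0 : inc D v • ((w, x w) : E × V) = (v • w, v * x w) := by
      apply Prod.ext
      · rfl
      · show inc D v • x w = v * x w
        rw [hsm]
        have e1 : (inc D v).1.fs = v := rfl
        have e2 : (inc D v).1.sn = 0 := rfl
        rw [e1, e2, map_zero, zero_mul, add_zero]
    have h1 : ((v • w, v * x w) : E × V) ∈ P := by
      rw [← h0]
      exact P.smul_mem _ (hxP w)
    rw [hind _ _ _ (hxP (v • w)) h1, RingHom.id_apply]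
    have h2 : (⟨(v • w, v * x w), h1⟩ : P) = inc D v • (⟨(w, x w), hxP w⟩ : P) :=
      Subtype.ext h0.symm
    rw [h2, map_smul, hZ]
    rfl
  · intro z
    have h1 : ((j z, 0) : E × V) ∈ P := by rw [hPmem, hj0, map_zero]
    show r ⟨(j z, x (j z)), hxP (j z)⟩ = z
    rw [hind _ _ _ (hxP (j z)) h1]
    exact hr z

end Q98.RD
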