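import Pool.Agent.Q32.RD.Stm2
set_option autoImplicit false

/-! Project RD of helper32: job SEQ (helper98). -/

namespace Q98.RD

open Q32.RD Cardinal

universe u

/-- extension of maps from the kernel of a map onto `X` when extensions of `X` by `N` split -/
theorem spl_extend {V : Type u} [CommRing V] {F X N : Type u} [AddCommGroup F] [Module V F]
    [AddCommGroup X] [Module V X] [AddCommGroup N] [Module V N] (ε : F →ₗ[V] X)
    (hε : Function.Surjective ε) (g : LinearMap.ker ε →ₗ[V] N) (h : Spl V X N) :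
    ∃ H : F →ₗ[V] N, ∀ k : LinearMap.ker ε, H k = g k := by
  let R : LinearMap.ker ε →ₗ[V] N × F := g.prod (-(LinearMap.ker ε).subtype)
  have hR : ∀ k, R k = (g k, -(k : F)) := fun _ => rfl
  let E := (N × F) ⧸ LinearMap.range R
  let i : N →ₗ[V] E := (LinearMap.range R).mkQ.comp (LinearMap.inl V N F)
  let p : E →ₗ[V] X := (LinearMap.range R).liftQ (ε.comp (LinearMap.snd V N F)) (by
    rintro _ ⟨k, rfl⟩
    rw [hR]
    show ε (-(k : F)) = 0
    rw [map_neg, LinearMap.mem_ker.1 k.2, neg_zero])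
  have hi : ∀ n, i n = Submodule.Quotient.mk (n, 0) := fun _ => rfl
  have hp : ∀ z, p (Submodule.Quotient.mk z) = ε z.2 := fun _ => rfl
  obtain ⟨r, hr⟩ := h E i p
    (by
      rw [← LinearMap.ker_eq_bot, LinearMap.ker_eq_bot']
      intro n hn
      rw [hi, Submodule.Quotient.mk_eq_zero] at hn
      obtain ⟨k, hk⟩ := hn
      rw [hR] at hk
      have h1 : g k = n := congrArg Prod.fst hk
      have h2 : -(k : F) = 0 := congrArg Prod.snd hk
      have h3 : k = 0 := Subtype.ext (neg_eq_zero.1 h2)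
      rw [← h1, h3, map_zero])
    (by
      intro x
      obtain ⟨f, rfl⟩ := hε x
      exact ⟨Submodule.Quotient.mk (0, f), rfl⟩)
    (by
      ext y
      constructor
      · rintro ⟨n, rfl⟩
        show ε (0 : F) = 0
        exact map_zero _
      · intro hy
        obtain ⟨z, rfl⟩ := Submodule.Quotient.mk_surjective _ y
        rw [LinearMap.mem_ker, hp] at hy
        refine ⟨z.1 + g ⟨z.2, hy⟩, ?_⟩
        rw [hi, Submodule.Quotient.eq]
        refine ⟨⟨z.2, hy⟩, ?_⟩
        rw [hR]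
        apply Prod.ext <;> simp)
  refine ⟨r.comp ((LinearMap.range R).mkQ.comp (LinearMap.inr V N F)), fun k => ?_⟩
  have h1 : ((LinearMap.range R).mkQ.comp (LinearMap.inr V N F)) (k : F) = i (g k) := by
    rw [hi]
    show (Submodule.Quotient.mk ((0 : N), (k : F)) : E) = Submodule.Quotient.mk (g k, 0)
    rw [Submodule.Quotient.eq]
    refine ⟨-k, ?_⟩
    rw [map_neg, hR]
    apply Prod.ext <;> simp
  rw [LinearMap.comp_apply, h1, hr]

/-- factoring through a surjective map -/
theorem factor {V : Type u} [CommRing V] {F K N : Type u} [AddCommGroup F] [Module V F]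
    [AddCommGroup K] [Module V K] [AddCommGroup N] [Module V N] (q : F →ₗ[V] K)
    (hq : Function.Surjective q) (f : F →ₗ[V] N) (h : ∀ x, q x = 0 → f x = 0) :
    ∃ g : K →ₗ[V] N, ∀ x, g (q x) = f x := by
  refine ⟨((LinearMap.ker q).liftQ f h).comp (q.quotKerEquivOfSurjective hq).symm.toLinearMap,
    fun x => ?_⟩
  have h1 : (q.quotKerEquivOfSurjective hq).symm (q x) = Submodule.Quotient.mk x := by
    rw [LinearEquiv.symm_apply_eq]
    rfl
  rw [LinearMap.comp_apply]
  show (LinearMap.ker q).liftQ f h ((q.quotKerEquivOfSurjective hq).symm (q x)) = f x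
  rw [h1]
  rfl

theorem exists_q {I V : Type u} [CommRing V] [Nontrivial V] [Infinite I] (hV : #V ≤ #I)
    (M : Submodule V (I →₀ V)) : ∃ q : (I →₀ V) →ₗ[V] (I →₀ V), LinearMap.range q = M := by
  have h1 : #(I →₀ V) = #I := by
    rw [Cardinal.mk_finsupp_of_infinite]
    exact max_eq_left hV
  have h2 : #M ≤ #I := by
    rw [← h1]
    exact Cardinal.mk_le_of_injective Subtype.val_injective
  obtain ⟨j⟩ := h2
  let σ : I → M := Function.invFun j
  have hσ : Function.Surjective σ := Function.invFun_surjective j.injective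
  refine ⟨Finsupp.linearCombination V (fun i => (σ i : I →₀ V)), ?_⟩
  rw [Finsupp.range_linearCombination]
  have h3 : Set.range (fun i => (σ i : I →₀ V)) = M := by
    ext x
    constructor
    · rintro ⟨i, rfl⟩
      exact (σ i).2
    · intro hx
      obtain ⟨i, hi⟩ := hσ ⟨x, hx⟩
      exact ⟨i, by simp [hi]⟩
  rw [h3, Submodule.span_eq]

theorem exists_seq {I V : Type u} [CommRing V] [Nontrivial V] [Infinite I] (hV : #V ≤ #I)
    (M : Submodule V (I →₀ V)) : ∃ (Ss : ℕ → Submodule V (I →₀ V))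
      (q : ℕ → (I →₀ V) →ₗ[V] (I →₀ V)), Ss 0 = M ∧ (∀ n, LinearMap.range (q n) = Ss n) ∧
        ∀ n, LinearMap.ker (q n) = Ss (n + 1) := by
  choose Q hQ using fun M : Submodule V (I →₀ V) => exists_q hV M
  let Ss : ℕ → Submodule V (I →₀ V) :=
    fun n => Nat.rec M (fun _ M => LinearMap.ker (Q M)) n
  exact ⟨Ss, fun n => Q (Ss n), rfl, fun n => hQ _, fun n => rfl⟩

section shift

variable {V : Type u} [CommRing V] {F : Type u} [AddCommGroup F] [Module V F]

/-- the map `x ↦ (q j (x (j+1)))_j` -/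
noncomputable def sh (q : ℕ → F →ₗ[V] F) : (ℕ →₀ F) →ₗ[V] (ℕ →₀ F) :=
  Finsupp.lsum V (fun n => Nat.casesOn n (0 : F →ₗ[V] (ℕ →₀ F))
    (fun n => (Finsupp.lsingle n).comp (q n)))

theorem sh_apply (q : ℕ → F →ₗ[V] F) (x : ℕ →₀ F) (j : ℕ) : sh q x j = q j (x (j + 1)) := by
  induction x using Finsupp.induction_linear with
  | zero => simp
  | add f g hf hg => rw [map_add (sh q), Finsupp.add_apply, hf, hg, Finsupp.add_apply, map_add (q j)]
  | single a b =>
    cases a with
    | zero =>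
      unfold sh
      rw [Finsupp.lsum_single]
      simp
    | succ n =>
      unfold sh
      rw [Finsupp.lsum_single]
      show (Finsupp.single n (q n b)) j = q j (Finsupp.single (n + 1) b (j + 1))
      by_cases h : n = j
      · subst h
        simp
      · rw [Finsupp.single_eq_of_ne (Ne.symm h), Finsupp.single_eq_of_ne (by omega), map_zero]

end shift


/-- the differential -/
noncomputable def dif {V : Type u} [CommRing V] {F X : Type u} [AddCommGroup F] [Module V F]
    [AddCommGroup X] [Module V X] (ε : F →ₗ[V] X) (q : ℕ → F →ₗ[V] F) :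
    (X × (ℕ →₀ F)) →ₗ[V] (X × (ℕ →₀ F)) :=
  LinearMap.prod ((ε.comp (Finsupp.lapply 0)).comp (LinearMap.snd V _ _))
    ((sh q).comp (LinearMap.snd V _ _))

theorem dif_ker {V : Type u} [CommRing V] {F X : Type u} [AddCommGroup F] [Module V F]
    [AddCommGroup X] [Module V X] (ε : F →ₗ[V] X) (q : ℕ → F →ₗ[V] F)
    (Ss : ℕ → Submodule V F) (hS0 : Ss 0 = LinearMap.ker ε)
    (hqk : ∀ n, LinearMap.ker (q n) = Ss (n + 1)) (z : X × (ℕ →₀ F)) :
    z ∈ LinearMap.ker (dif ε q) ↔ ∀ j, z.2 j ∈ Ss j := by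
  have hDm : dif ε q z = (ε (z.2 0), sh q z.2) := rfl
  rw [LinearMap.mem_ker, hDm]
  constructor
  · intro h j
    have h1 : ε (z.2 0) = 0 := congrArg Prod.fst h
    have h2 : sh q z.2 = 0 := congrArg Prod.snd h
    cases j with
    | zero =>
      rw [hS0]
      exact h1
    | succ j =>
      rw [← hqk, LinearMap.mem_ker, ← sh_apply q z.2 j, h2]
      rfl
  · intro h
    apply Prod.ext
    · have := h 0
      rw [hS0] at this
      exact this
    · ext1 j
      have := h (j + 1)
      rw [← hqk] at this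
      rw [sh_apply]
      exact this

theorem dif_exact {V : Type u} [CommRing V] {F X : Type u} [AddCommGroup F] [Module V F]
    [AddCommGroup X] [Module V X] (ε : F →ₗ[V] X) (hεs : Function.Surjective ε)
    (q : ℕ → F →ₗ[V] F)
    (Ss : ℕ → Submodule V F) (hS0 : Ss 0 = LinearMap.ker ε)
    (hqr : ∀ n, LinearMap.range (q n) = Ss n)
    (hqk : ∀ n, LinearMap.ker (q n) = Ss (n + 1)) :
    LinearMap.ker (dif ε q) = LinearMap.range (dif ε q) := by
  classical
  ext z
  rw [dif_ker ε q Ss hS0 hqk]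
  constructor
  · intro h
    have h1 : ∀ j, ∃ x : F, q j x = z.2 j ∧ (z.2 j = 0 → x = 0) := by
      intro j
      by_cases h0 : z.2 j = 0
      · exact ⟨0, by rw [map_zero, h0], fun _ => rfl⟩
      · have := h j
        rw [← hqr] at this
        obtain ⟨x, hx⟩ := this
        exact ⟨x, hx, fun h2 => absurd h2 h0⟩
    choose x hx1 hx2 using h1
    obtain ⟨x₀, hx₀⟩ := hεs z.1
    let Y : ℕ →₀ F := Finsupp.onFinset (insert 0 (z.2.support.image (fun n => n + 1)))
      (fun n => Nat.casesOn n x₀ (fun j => x j)) (by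
        intro n hn
        cases n with
        | zero => simp
        | succ n =>
          apply Finset.mem_insert_of_mem
          apply Finset.mem_image.2
          refine ⟨n, ?_, rfl⟩
          rw [Finsupp.mem_support_iff]
          intro h0
          exact hn (hx2 n h0))
    have hY0 : Y 0 = x₀ := rfl
    have hY1 : ∀ n, Y (n + 1) = x n := fun _ => rfl
    refine ⟨(0, Y), ?_⟩
    apply Prod.ext
    · show ε (Y 0) = z.1
      rw [hY0, hx₀]
    · show sh q Y = z.2
      ext1 j
      rw [sh_apply, hY1, hx1]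
  · rintro ⟨y, rfl⟩ j
    show sh q y.2 j ∈ Ss j
    rw [sh_apply, ← hqr]
    exact ⟨_, rfl⟩

theorem dif_proj {V : Type u} [CommRing V] {F X : Type u} [AddCommGroup F] [Module V F]
    [Module.Projective V F]
    [AddCommGroup X] [Module V X] (ε : F →ₗ[V] X) (hεs : Function.Surjective ε)
    (q : ℕ → F →ₗ[V] F)
    (Ss : ℕ → Submodule V F) (hS0 : Ss 0 = LinearMap.ker ε)
    (hqr : ∀ n, LinearMap.range (q n) = Ss n)
    (hqk : ∀ n, LinearMap.ker (q n) = Ss (n + 1))
    (J : Type u) [AddCommGroup J] [Module V J] (i : LinearMap.ker (dif ε q) →ₗ[V] J)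
    (hJ : Module.Injective V J) (hi : Function.Injective i)
    (hSpl : Spl V X (J ⧸ LinearMap.range i)) : Module.Projective V (LinearMap.ker ε) := by
  have hker := dif_ker ε q Ss hS0 hqk
  -- the map `j₁`
  let j₀ : Ss 1 →ₗ[V] (X × (ℕ →₀ F)) := ((LinearMap.inr V X (ℕ →₀ F)).comp
      (Finsupp.lsingle 1 : F →ₗ[V] (ℕ →₀ F))).comp (Ss 1).subtype
  let j₁ : Ss 1 →ₗ[V] LinearMap.ker (dif ε q) :=
    LinearMap.codRestrict (LinearMap.ker (dif ε q)) j₀ (fun x : Ss 1 => by
      rw [hker]
      intro j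
      show (Finsupp.single 1 (x : F)) j ∈ Ss j
      by_cases h : j = 1
      · subst h
        rw [Finsupp.single_eq_same]
        exact x.2
      · rw [Finsupp.single_eq_of_ne h]
        exact (Ss j).zero_mem)
  have hj₁ : ∀ x : Ss 1, (j₁ x : X × (ℕ →₀ F)).2 1 = (x : F) := by
    intro x
    show (Finsupp.single 1 (x : F)) 1 = x
    rw [Finsupp.single_eq_same]
  let ij : Ss 1 →ₗ[V] J := i.comp j₁
  obtain ⟨h, hh⟩ : ∃ h : F →ₗ[V] J, ∀ x : Ss 1, h ((Ss 1).subtype x) = ij x :=
    Module.Injective.out (Ss 1).subtype Subtype.val_injective ij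
  -- `q 0` as a map onto `ker ε`
  let q0 : F →ₗ[V] LinearMap.ker ε := LinearMap.codRestrict _ (q 0) (by
    intro x
    have : q 0 x ∈ LinearMap.range (q 0) := ⟨x, rfl⟩
    rw [hqr 0, hS0] at this
    exact this)
  have hq0v : ∀ x : F, (q0 x : F) = q 0 x := fun _ => rfl
  have hq0s : Function.Surjective q0 := by
    rintro ⟨y, hy⟩
    have : y ∈ LinearMap.range (q 0) := by
      rw [hqr 0, hS0]
      exact hy
    obtain ⟨x, hx⟩ := this
    exact ⟨x, Subtype.ext hx⟩
  have hq0k : ∀ x : F, q0 x = 0 → x ∈ Ss 1 := by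
    intro x hx
    rw [← hqk 0]
    exact congrArg Subtype.val hx
  obtain ⟨g, hg⟩ := factor q0 hq0s ((LinearMap.range i).mkQ.comp h) (by
    intro x hx
    have h1 := hh ⟨x, hq0k x hx⟩
    show (Submodule.Quotient.mk (h x) : J ⧸ LinearMap.range i) = 0
    rw [Submodule.Quotient.mk_eq_zero]
    exact ⟨_, h1.symm⟩)
  obtain ⟨H, hH⟩ := spl_extend ε hεs g hSpl
  obtain ⟨H₁, hH₁⟩ := Module.projective_lifting_property (LinearMap.range i).mkQ H
    (Submodule.mkQ_surjective _)
  have hH₁' : ∀ x, (Submodule.Quotient.mk (H₁ x) : J ⧸ LinearMap.range i) = H x := fun x =>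
    LinearMap.congr_fun hH₁ x
  let d : F →ₗ[V] LinearMap.range i :=
    LinearMap.codRestrict _ (h - H₁.comp (q 0)) (by
      intro x
      rw [← Submodule.Quotient.mk_eq_zero, LinearMap.sub_apply, Submodule.Quotient.mk_sub,
        LinearMap.comp_apply, hH₁', ← hq0v, hH, hg]
      show (Submodule.Quotient.mk (h x) : J ⧸ LinearMap.range i) - Submodule.Quotient.mk (h x) = 0
      rw [sub_self])
  let t : F →ₗ[V] LinearMap.ker (dif ε q) :=
    (LinearEquiv.ofInjective i hi).symm.toLinearMap.comp d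
  have ht : ∀ x, i (t x) = h x - H₁ (q 0 x) := by
    intro x
    have h1 : (LinearEquiv.ofInjective i hi) (t x) = d x := by
      show (LinearEquiv.ofInjective i hi) ((LinearEquiv.ofInjective i hi).symm (d x)) = d x
      rw [LinearEquiv.apply_symm_apply]
    exact congrArg Subtype.val h1
  have ht1 : ∀ x : Ss 1, t x = j₁ x := by
    intro x
    apply hi
    have h1 : q 0 (x : F) = 0 := by
      have h2 := hqk 0
      have h3 : (x : F) ∈ LinearMap.ker (q 0) := by
        rw [h2]
        exact x.2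
      exact h3
    rw [ht, h1, map_zero, sub_zero]
    exact hh x
  let t₁ : F →ₗ[V] F :=
    (((Finsupp.lapply 1).comp (LinearMap.snd V X (ℕ →₀ F))).comp
      (LinearMap.ker (dif ε q)).subtype).comp t
  have ht₁ : ∀ x, t₁ x = (t x : X × (ℕ →₀ F)).2 1 := fun _ => rfl
  have ht₁S : ∀ x, t₁ x ∈ Ss 1 := fun x => (hker _).1 (t x).2 1
  have ht₁id : ∀ x : Ss 1, t₁ x = x := by
    intro x
    rw [ht₁, ht1, hj₁]
  obtain ⟨σ, hσ⟩ := factor q0 hq0s (LinearMap.id - t₁) (by
    intro x hx
    have h1 := ht₁id ⟨x, hq0k x hx⟩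
    rw [LinearMap.sub_apply, LinearMap.id_apply]
    have h2 : t₁ x = x := h1
    rw [h2, sub_self])
  have hsp : q0.comp σ = LinearMap.id := by
    ext1 y
    obtain ⟨x, rfl⟩ := hq0s y
    rw [LinearMap.comp_apply, hσ, LinearMap.sub_apply, LinearMap.id_apply, map_sub,
      LinearMap.id_apply]
    have h1 : q0 (t₁ x) = 0 := by
      apply Subtype.ext
      rw [hq0v]
      have := ht₁S x
      rw [← hqk 0] at this
      exact this
    rw [h1, sub_zero]
  exact Module.Projective.of_split σ q0 hsp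

theorem seq : S_SEQ.{u} := by
  intro I V _ _ S hV
  haveI : Nontrivial V := ⟨1, 0, S.one_ne⟩
  obtain ⟨i₀⟩ : Nonempty I := inferInstance
  let ε : (I →₀ V) →ₗ[V] (V ⧸ RingHom.ker S.c) :=
    (RingHom.ker S.c).mkQ.comp (Finsupp.lapply i₀)
  have hε : ∀ x, ε x = Submodule.Quotient.mk (x i₀) := fun _ => rfl
  have hεs : Function.Surjective ε := by
    intro y
    obtain ⟨v, rfl⟩ := Submodule.Quotient.mk_surjective _ y
    exact ⟨Finsupp.single i₀ v, by rw [hε, Finsupp.single_eq_same]⟩
  obtain ⟨Ss, q, hS0, hqr, hqk⟩ := exists_seq hV (LinearMap.ker ε)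
  refine ⟨dif ε q, dif_exact ε hεs q Ss hS0 hqr hqk, ?_⟩
  intro J _ _ i hJ hi hSpl
  haveI := dif_proj ε hεs q Ss hS0 hqr hqk J i hJ hi hSpl
  let a : RingHom.ker S.c →ₗ[V] LinearMap.ker ε :=
    LinearMap.codRestrict _ ((Finsupp.lsingle i₀).comp (Submodule.subtype (RingHom.ker S.c))) (by
      intro v
      show ε (Finsupp.single i₀ (v : V)) = 0
      rw [hε, Finsupp.single_eq_same, Submodule.Quotient.mk_eq_zero]
      exact v.2)
  let b : LinearMap.ker ε →ₗ[V] RingHom.ker S.c :=
    LinearMap.codRestrict (RingHom.ker S.c) ((Finsupp.lapply i₀).comp (LinearMap.ker ε).subtype) (by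
      intro x
      have h1 : ε (x : I →₀ V) = 0 := x.2
      rw [hε, Submodule.Quotient.mk_eq_zero] at h1
      exact h1)
  refine Module.Projective.of_split a b ?_
  ext v
  show (Finsupp.single i₀ (v : V)) i₀ = v
  rw [Finsupp.single_eq_same]


end Q98.RD
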